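import Pool.Agent.Y503.RB.Def3

/-!
# The limit conditions LIM0 and LIM1 (project RB of helper503)
-/

set_option autoImplicit false

namespace Pool.Agent.Y941.RB

open scoped ContDiff RealInnerProductSpace ENNReal Topology
open MeasureTheory Set Metric
open Pool.Agent.Y503.RB

lemma ev_diff {F : Type} [NormedAddCommGroup F] [NormedSpace ℝ F] {f : ℂ → F} {z : ℂ}
    (h : ContDiffAt ℝ ∞ f z) : ∀ᶠ w in 𝓝 z, DifferentiableAt ℝ f w := by
  have h1 : ContDiffAt ℝ 1 f z := h.of_le (by exact_mod_cast le_top)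
  filter_upwards [h1.eventually (by norm_num)] with w hw
  exact hw.differentiableAt (by norm_num)

lemma fd_diff {F : Type} [NormedAddCommGroup F] [NormedSpace ℝ F] {f : ℂ → F} {z : ℂ}
    (h : ContDiffAt ℝ ∞ f z) : DifferentiableAt ℝ (fderiv ℝ f) z := by
  have h1 : ContDiffAt ℝ ∞ (fderiv ℝ f) z := h.fderiv_right (by simp)
  exact h1.differentiableAt (by norm_num)

lemma sg1 {σ : ℂ → E4} {z : ℂ} (hσ : ContDiffAt ℝ ∞ σ z) (h1 : ∀ᶠ w in 𝓝 z, ‖σ w‖ = 1) (v : ℂ) :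
    ⟪σ z, d1 σ v z⟫ = 0 := by
  have hd : DifferentiableAt ℝ σ z := hσ.differentiableAt (by norm_num)
  have e1 : (fun w => ⟪σ w, σ w⟫) =ᶠ[𝓝 z] fun _ => (1:ℝ) := by
    filter_upwards [h1] with w hw
    rw [real_inner_self_eq_norm_sq, hw, one_pow]
  have e2 := fderiv_inner_apply ℝ hd hd v
  rw [e1.fderiv_eq] at e2
  have e3 : ⟪fderiv ℝ σ z v, σ z⟫ = ⟪σ z, fderiv ℝ σ z v⟫ := real_inner_comm _ _
  rw [e3] at e2
  have e4 : (fderiv ℝ (fun _ : ℂ => (1:ℝ)) z) v = 0 := by simp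
  rw [e4] at e2
  unfold d1
  linarith

lemma sg2 {σ : ℂ → E4} {z : ℂ} (hσ : ContDiffAt ℝ ∞ σ z) (h1 : ∀ᶠ w in 𝓝 z, ‖σ w‖ = 1) (v : ℂ) :
    ⟪σ z, d2 σ v v z⟫ = -‖d1 σ v z‖ ^ 2 := by
  have hd : DifferentiableAt ℝ σ z := hσ.differentiableAt (by norm_num)
  have hd' : DifferentiableAt ℝ (fun w => fderiv ℝ σ w v) z :=
    (fd_diff hσ).clm_apply (differentiableAt_const v)
  have h2 := h1.eventually_nhds
  have e1 : (fun w => ⟪σ w, fderiv ℝ σ w v⟫) =ᶠ[𝓝 z] fun _ => (0:ℝ) := by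
    filter_upwards [h2, ev_diff hσ] with w hw hd
    have e1 : (fun w => ⟪σ w, σ w⟫) =ᶠ[𝓝 w] fun _ => (1:ℝ) := by
      filter_upwards [hw] with w hw
      rw [real_inner_self_eq_norm_sq, hw, one_pow]
    have e2 := fderiv_inner_apply ℝ hd hd v
    rw [e1.fderiv_eq] at e2
    have e3 : ⟪fderiv ℝ σ w v, σ w⟫ = ⟪σ w, fderiv ℝ σ w v⟫ := real_inner_comm _ _
    rw [e3] at e2
    have e4 : (fderiv ℝ (fun _ : ℂ => (1:ℝ)) w) v = 0 := by simp
    rw [e4] at e2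
    linarith
  have e2 := fderiv_inner_apply ℝ hd hd' v
  rw [e1.fderiv_eq] at e2
  have e4 : (fderiv ℝ (fun _ : ℂ => (0:ℝ)) z) v = 0 := by simp
  rw [e4, real_inner_self_eq_norm_sq] at e2
  unfold d2 d1
  linarith

/-- a unit vector with inner product one -/
lemma eq_of_one {x y : E4} (hx : ‖x‖ = 1) (hy : ‖y‖ = 1) (h : 2 - 2 * ⟪x, y⟫ = 0) : y = x := by
  have h1 : ‖y - x‖ ^ 2 = 0 := by
    rw [norm_sub_sq_real, hx, hy, real_inner_comm]
    linarith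
  have h2 : ‖y - x‖ = 0 := by
    exact pow_eq_zero_iff (by norm_num) |>.mp h1
  exact sub_eq_zero.mp (norm_eq_zero.mp h2)

/-- the case `ξ = σ z` -/
lemma case0 {σ : ℂ → E4} {z : ℂ} (hσ : ContDiffAt ℝ ∞ σ z) (h1 : ∀ᶠ w in 𝓝 z, ‖σ w‖ = 1)
    (v : ℂ) (hv : d1 σ v z ≠ 0) : 0 < -2 * ⟪d2 σ v v z, σ z⟫ := by
  rw [real_inner_comm, sg2 hσ h1 v]
  have : 0 < ‖d1 σ v z‖ := norm_pos_iff.mpr hv
  have : 0 < ‖d1 σ v z‖ ^ 2 := by positivity
  linarith

theorem lim0 : St_LIM0 := by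
  intro f σ z hσ h1 hf hf' ⟨v, hv⟩ ξ hξ β hβ e1 e2
  have hz : ‖σ z‖ = 1 := h1.self_of_nhds
  rw [hf, mul_zero] at e1
  have hξz : ξ = σ z := eq_of_one hz hξ e1
  subst hξz
  have hβ0 : β = 0 := by
    by_contra hb
    apply hf'
    ext u
    have h3 := e2 u
    rw [real_inner_comm, sg1 hσ h1, mul_zero] at h3
    have := (mul_eq_zero.mp h3.symm).resolve_left hb
    simpa using this
  refine ⟨v, ?_⟩
  rw [hβ0, zero_mul]
  exact case0 hσ h1 v hv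

/-! ### derivatives of the composition -/

section comp

variable {q : ℂ → ℝ} {h : ℝ → ℝ} {z : ℂ}

lemma hd_smooth (hh : ContDiff ℝ ∞ h) : ContDiff ℝ ∞ (deriv h) :=
  (contDiff_infty_iff_deriv.mp hh).2

lemma h_has (hh : ContDiff ℝ ∞ h) (s : ℝ) : HasDerivAt h (deriv h s) s :=
  ((contDiff_infty_iff_deriv.mp hh).1 s).hasDerivAt

lemma fd_comp (hh : ContDiff ℝ ∞ h) (hq : DifferentiableAt ℝ q z) :
    fderiv ℝ (fun w => h (q w)) z = deriv h (q z) • fderiv ℝ q z :=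
  ((h_has hh (q z)).comp_hasFDerivAt z hq.hasFDerivAt).fderiv

lemma fd2_comp (hh : ContDiff ℝ ∞ h) (hq : ContDiffAt ℝ ∞ q z) (v : ℂ) :
    fderiv ℝ (fderiv ℝ (fun w => h (q w))) z v v =
      deriv h (q z) * fderiv ℝ (fderiv ℝ q) z v v +
        deriv (deriv h) (q z) * (fderiv ℝ q z v) ^ 2 := by
  have e1 : fderiv ℝ (fun w => h (q w)) =ᶠ[𝓝 z] fun w => deriv h (q w) • fderiv ℝ q w := by
    filter_upwards [ev_diff hq] with w hw
    exact fd_comp hh hw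
  have hc : HasFDerivAt (fun w => deriv h (q w)) (deriv (deriv h) (q z) • fderiv ℝ q z) z :=
    (h_has (hd_smooth hh) (q z)).comp_hasFDerivAt z
      (hq.differentiableAt (by norm_num)).hasFDerivAt
  have hs := hc.smul (fd_diff hq).hasFDerivAt
  rw [e1.fderiv_eq]
  have hs' := hs.fderiv
  rw [show (fun w => deriv h (q w) • fderiv ℝ q w) =
    ((fun w => deriv h (q w)) • fderiv ℝ q : ℂ → ℂ →L[ℝ] ℝ) from rfl, hs']
  simp
  ring

lemma deriv_kap (hh : ContDiff ℝ ∞ h) (s : ℝ) (hs : deriv h s ≠ 0) :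
    deriv (kap h) s = 1 - h s * deriv (deriv h) s / (deriv h s) ^ 2 := by
  have h1 := ((h_has hh s).div (h_has (hd_smooth hh) s) hs).deriv
  have e : (h / deriv h) = kap h := rfl
  rw [e] at h1
  rw [h1]
  field_simp

end comp

theorem lim1 : St_LIM1 := by
  intro q h σ z hh hq hσ h1 ⟨v₀, hv₀⟩ hp hp' hG ξ hξ β hβ e1 e2
  have hz : ‖σ z‖ = 1 := h1.self_of_nhds
  have hqd : DifferentiableAt ℝ q z := hq.differentiableAt (by norm_num)
  beta_reduce at e1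
  rcases hβ.eq_or_lt with hβ0 | hβ0
  · rw [← hβ0, zero_mul] at e1
    have hξz : ξ = σ z := eq_of_one hz hξ e1
    subst hξz
    refine ⟨v₀, ?_⟩
    rw [← hβ0, zero_mul]
    exact case0 hσ h1 v₀ hv₀
  · set A := h (q z) with hA
    set B := deriv h (q z) with hB
    set W : ℝ := 2 - 2 * ⟪σ z, ξ⟫ with hW
    have hW0 : 0 < W := by rw [e1]; positivity
    have hWn : ‖ξ - σ z‖ ^ 2 = W := by
      rw [norm_sub_sq_real, hξ, hz, real_inner_comm, hW]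
      ring
    have hWs : ‖ξ - σ z‖ = Real.sqrt W := by
      rw [← hWn, Real.sqrt_sq (norm_nonneg _)]
    have hs0 : 0 < Real.sqrt W := Real.sqrt_pos.mpr hW0
    have hss : Real.sqrt W ^ 2 = W := Real.sq_sqrt hW0.le
    have hs2 : Real.sqrt W ≤ 2 := by
      rw [← hWs]
      calc ‖ξ - σ z‖ ≤ ‖ξ‖ + ‖σ z‖ := norm_sub_le _ _
        _ = 2 := by rw [hξ, hz]; norm_num
    set r := Real.sqrt W with hr
    have hκ : kap h (q z) = A / B := rfl
    have hk := deriv_kap hh (q z) hp'.ne'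
    -- the first derivatives
    have e3 : ∀ v, -2 * ⟪d1 σ v z, ξ⟫ = β * (B * fderiv ℝ q z v) := by
      intro v
      rw [e2 v, fd_comp hh hqd]
      rfl
    have e4 : ∀ v, |⟪d1 σ v z, ξ⟫| ≤ ‖d1 σ v z‖ * r := by
      intro v
      have h3 : ⟪d1 σ v z, ξ⟫ = ⟪d1 σ v z, ξ - σ z⟫ := by
        rw [inner_sub_right, real_inner_comm (σ z) (d1 σ v z), sg1 hσ h1 v, sub_zero]
      rw [h3, ← hWs]
      exact abs_real_inner_le_norm _ _
    have hβW : β * A = r ^ 2 := by rw [hss, e1]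
    have e5 : ∀ u : ℂ, |fderiv ℝ q z u| ≤ 2 * kap h (q z) * ‖d1 σ u z‖ * r⁻¹ := by
      intro u
      have h3 : fderiv ℝ q z u = -2 * ⟪d1 σ u z, ξ⟫ / (β * B) := by
        rw [e3 u]
        field_simp
      have hβB : 0 < β * B := by positivity
      rw [h3, abs_div, abs_of_pos hβB, abs_mul, abs_neg, abs_two, hκ, div_le_iff₀ hβB]
      have h4 : 2 * (A / B) * ‖d1 σ u z‖ * r⁻¹ * (β * B) = 2 * (‖d1 σ u z‖ * r) := by
        have : 2 * (A / B) * ‖d1 σ u z‖ * r⁻¹ * (β * B) = 2 * ‖d1 σ u z‖ * (β * A) * r⁻¹ := by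
          field_simp
        rw [this, hβW]
        field_simp
      rw [h4]
      have := e4 u
      linarith
    obtain ⟨v, hv⟩ := hG r⁻¹ (by
      rw [one_div]
      exact inv_anti₀ hs0 hs2) e5
    refine ⟨v, ?_⟩
    rw [fd2_comp hh hq v]
    have e6 : -2 * ⟪d2 σ v v z, ξ⟫ = 2 * ‖d1 σ v z‖ ^ 2 - 2 * ⟪d2 σ v v z, ξ - σ z⟫ := by
      rw [inner_sub_right, real_inner_comm (σ z) (d2 σ v v z), sg2 hσ h1 v]
      ring
    have e7 : ⟪d2 σ v v z, ξ - σ z⟫ ≤ ‖d2 σ v v z‖ * r := by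
      rw [← hWs]
      exact real_inner_le_norm _ _
    rw [e6, hκ, hk] at *
    have h5 : r ^ 2 * (fderiv ℝ (fderiv ℝ q) z v v / (A / B) +
        (1 - (1 - A * deriv (deriv h) (q z) / B ^ 2)) * (fderiv ℝ q z v) ^ 2 / (A / B) ^ 2) =
        β * (B * fderiv ℝ (fderiv ℝ q) z v v + deriv (deriv h) (q z) * (fderiv ℝ q z v) ^ 2) := by
      rw [← hβW]
      field_simp
      ring
    have h6 : r ^ 2 * (2 * ‖d1 σ v z‖ ^ 2 * r⁻¹ ^ 2 - 2 * ‖d2 σ v v z‖ * r⁻¹) =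
        2 * ‖d1 σ v z‖ ^ 2 - 2 * (‖d2 σ v v z‖ * r) := by
      field_simp
    have h7 := mul_lt_mul_of_pos_left hv (show 0 < r ^ 2 by positivity)
    rw [h5, h6] at h7
    linarith

end Pool.Agent.Y941.RB
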